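import Pool.Agent.W133.DQ.StB

set_option autoImplicit false

open scoped ContDiff
open Set Filter Topology

namespace Pool.Agent.W803.DQ

open Pool.Agent.W133.DQ

theorem isG_unique {f g : Equiv.Perm P2} {u : P2 → ℝ} (hf : IsG f u) (hg : IsG g u) : f = g :=
  Equiv.ext fun p => by rw [hf p, hg p]

theorem pl_zero {a b x : ℝ} (hab : a < b) (hx : b ≤ |x|) : pl a b x = 0 := by
  unfold pl
  rcases le_abs.1 hx with h | h
  · have : Real.smoothTransition ((b - x) / (b - a)) = 0 :=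
      Real.smoothTransition.zero_of_nonpos
        (div_nonpos_of_nonpos_of_nonneg (by linarith) (by linarith))
    rw [this, mul_zero]
  · have : Real.smoothTransition ((b + x) / (b - a)) = 0 :=
      Real.smoothTransition.zero_of_nonpos
        (div_nonpos_of_nonpos_of_nonneg (by linarith) (by linarith))
    rw [this, zero_mul]

theorem un1_zero (f : P2 → ℝ) (p : P2) (hp : p.1 ≤ 1 / 10 ∨ 9 / 10 ≤ p.1) : un1 f p = 0 := by
  unfold un1 chi0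
  rw [pl_zero (by norm_num), zero_mul]
  rcases hp with h | h
  · rw [le_abs]; right; linarith
  · rw [le_abs]; left; linarith

theorem un2_zero (f : P2 → ℝ) (p : P2) (hp : 3 / 5 ≤ |p.1|) : un2 f p = 0 := by
  unfold un2 kap
  rw [pl_zero (by norm_num) hp, zero_mul]

/-- the unrolled diffeomorphism -/
def AA (F1 F2 : Equiv.Perm P2) : Equiv.Perm P2 := F1 * (tr (-8, 0) * F2 * (tr (-8, 0))⁻¹)

theorem AA_apply {F1 F2 : Equiv.Perm P2} {f : P2 → ℝ} (h1 : IsG F1 (un1 f)) (h2 : IsG F2 (un2 f))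
    (p : P2) : AA F1 F2 p = (p.1 + un2 f (p.1 + 8, p.2) +
      un1 f (p.1 + un2 f (p.1 + 8, p.2), p.2), p.2) := by
  have e1 : p - ((-8, 0) : P2) = (p.1 + 8, p.2) := by
    ext
    · simp
    · simp
  have e2 : (tr (-8, 0) * F2 * (tr (-8, 0))⁻¹) p = (p.1 + un2 f (p.1 + 8, p.2), p.2) := by
    rw [Equiv.Perm.mul_apply, Equiv.Perm.mul_apply, tr_inv_apply, e1, h2, tr_apply]
    ext
    · simp; ring
    · simp
  rw [AA, Equiv.Perm.mul_apply, e2, h1]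

theorem AA_prop {F1 F2 : Equiv.Perm P2} {f : P2 → ℝ} (h1 : IsG F1 (un1 f)) (h2 : IsG F2 (un2 f))
    (b1 : ∀ p, |un1 f p| ≤ 1 / 2) (b2 : ∀ p, |un2 f p| ≤ 1 / 2) :
    (∀ p : P2, |(AA F1 F2 p).1 - p.1| ≤ 1 / 2) ∧ (∀ p : P2, 1 ≤ p.1 → AA F1 F2 p = p) ∧
      (∀ p : P2, p.1 ≤ -9 → AA F1 F2 p = p) := by
  refine ⟨fun p => ?_, fun p hp => ?_, fun p hp => ?_⟩
  · rw [AA_apply h1 h2]
    by_cases hc : 3 / 5 ≤ |p.1 + 8|
    · have c0 : un2 f (p.1 + 8, p.2) = 0 := un2_zero f _ hc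
      rw [c0]
      have := b1 (p.1 + 0, p.2)
      have e : p.1 + 0 + un1 f (p.1 + 0, p.2) - p.1 = un1 f (p.1 + 0, p.2) := by ring
      simpa only [e] using this
    · have hc' := abs_lt.1 (not_le.1 hc)
      have hb := abs_le.1 (b2 (p.1 + 8, p.2))
      have d0 : un1 f (p.1 + un2 f (p.1 + 8, p.2), p.2) = 0 :=
        un1_zero f _ (Or.inl (by show p.1 + un2 f (p.1 + 8, p.2) ≤ 1 / 10; linarith [hc'.2, hb.2]))
      rw [d0]
      have e : p.1 + un2 f (p.1 + 8, p.2) + 0 - p.1 = un2 f (p.1 + 8, p.2) := by ring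
      simpa only [e] using b2 (p.1 + 8, p.2)
  · rw [AA_apply h1 h2]
    have c0 : un2 f (p.1 + 8, p.2) = 0 := un2_zero f _ (by
      show 3 / 5 ≤ |p.1 + 8|
      rw [le_abs]; left; linarith)
    rw [c0, un1_zero f (p.1 + 0, p.2) (Or.inr (by show 9 / 10 ≤ p.1 + 0; linarith))]
    ext <;> simp
  · rw [AA_apply h1 h2]
    have c0 : un2 f (p.1 + 8, p.2) = 0 := un2_zero f _ (by
      show 3 / 5 ≤ |p.1 + 8|
      rw [le_abs]; right; linarith)
    rw [c0, un1_zero f (p.1 + 0, p.2) (Or.inl (by show p.1 + 0 ≤ 1 / 10; linarith))]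
    ext <;> simp

theorem conj_mem_LP (hCJ : S_CONJL) {L : Equiv.Perm P2 → ℝ} (hL : HomOn DC L)
    {F : Equiv.Perm P2} (hF : F ∈ LP) (a : ℝ) : tr (a, 0) * F * (tr (a, 0))⁻¹ ∈ LP := by
  refine ⟨((hCJ L hL).1 F hF.1 (a, 0)).1, fun p => ?_⟩
  rw [Equiv.Perm.mul_apply, Equiv.Perm.mul_apply, tr_apply, tr_inv_apply, Prod.snd_add, hF.2]
  simp

theorem star_bounds {f h : P2 → ℝ} (hf : ContDiff ℝ ∞ f) (hh : ContDiff ℝ ∞ h) {δ : ℝ}
    (hδ0 : 0 < δ) (hδ1 : δ ≤ 1) (h1 : NB 1 f δ) (h2 : NB 1 h δ) :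
    ContDiff ℝ ∞ (star f h) ∧ NB 1 (star f h) (4 * δ) := by
  have hin : ContDiff ℝ ∞ (fun p : P2 => ((p.1 + h p, p.2) : P2)) :=
    (contDiff_fst.add hh).prodMk contDiff_snd
  have hs : ContDiff ℝ ∞ (star f h) := hh.add (hf.comp hin)
  refine ⟨hs, fun p => ?_⟩
  have hne : (∞ : WithTop ℕ∞) ≠ 0 := by simp
  have dh : ‖fderiv ℝ h p‖ ≤ δ := by
    have := h2 p
    rwa [norm_iteratedFDeriv_one] at this
  have df : ‖fderiv ℝ f (p.1 + h p, p.2)‖ ≤ δ := by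
    have := h1 (p.1 + h p, p.2)
    rwa [norm_iteratedFDeriv_one] at this
  rw [norm_iteratedFDeriv_one]
  have Dh : HasFDerivAt h (fderiv ℝ h p) p := (hh.differentiable hne p).hasFDerivAt
  have Df : HasFDerivAt f (fderiv ℝ f (p.1 + h p, p.2)) (p.1 + h p, p.2) :=
    (hf.differentiable hne _).hasFDerivAt
  have Din : HasFDerivAt (fun p : P2 => ((p.1 + h p, p.2) : P2))
      ((ContinuousLinearMap.fst ℝ ℝ ℝ + fderiv ℝ h p).prod (ContinuousLinearMap.snd ℝ ℝ ℝ)) p :=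
    (hasFDerivAt_fst.add Dh).prodMk hasFDerivAt_snd
  have Ds : HasFDerivAt (star f h) (fderiv ℝ h p + (fderiv ℝ f (p.1 + h p, p.2)).comp
      ((ContinuousLinearMap.fst ℝ ℝ ℝ + fderiv ℝ h p).prod (ContinuousLinearMap.snd ℝ ℝ ℝ))) p :=
    Dh.add (Df.comp p Din)
  rw [Ds.fderiv]
  refine ContinuousLinearMap.opNorm_le_bound _ (by positivity) fun v => ?_
  have hv1 : |v.1| ≤ ‖v‖ := norm_fst_le v
  have hv2 : |v.2| ≤ ‖v‖ := norm_snd_le v
  have a1 : ‖fderiv ℝ h p v‖ ≤ δ * ‖v‖ :=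
    ((fderiv ℝ h p).le_opNorm v).trans (mul_le_mul_of_nonneg_right dh (norm_nonneg v))
  have a2 : ‖((v.1 + fderiv ℝ h p v, v.2) : P2)‖ ≤ 2 * ‖v‖ := by
    rw [Prod.norm_def]
    refine max_le ?_ ?_
    · refine (norm_add_le _ _).trans ?_
      have : δ * ‖v‖ ≤ ‖v‖ := by nlinarith [norm_nonneg v]
      have hv1' : ‖v.1‖ ≤ ‖v‖ := norm_fst_le v
      linarith
    · have hv2' : ‖v.2‖ ≤ ‖v‖ := norm_snd_le v
      show ‖v.2‖ ≤ 2 * ‖v‖
      linarith [norm_nonneg v]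
  have a3 : ‖fderiv ℝ f (p.1 + h p, p.2) (v.1 + fderiv ℝ h p v, v.2)‖ ≤ δ * (2 * ‖v‖) :=
    ((fderiv ℝ f (p.1 + h p, p.2)).le_opNorm _).trans
      (mul_le_mul df a2 (norm_nonneg _) hδ0.le)
  calc _ = ‖fderiv ℝ h p v + fderiv ℝ f (p.1 + h p, p.2) (v.1 + fderiv ℝ h p v, v.2)‖ := rfl
    _ ≤ ‖fderiv ℝ h p v‖ + ‖fderiv ℝ f (p.1 + h p, p.2) (v.1 + fderiv ℝ h p v, v.2)‖ :=
      norm_add_le _ _
    _ ≤ 4 * δ * ‖v‖ := by nlinarith [mul_nonneg hδ0.le (norm_nonneg v)]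

theorem uadd (hEQ : S_ROLLEQ) (hMUL : S_ROLLMUL) (hSH : S_ROLLSH) (hUN : S_UNROLL)
    (hCJ : S_CONJL) : S_UADD := by
  intro L hL
  obtain ⟨δ₀, hδ₀, hU⟩ := hUN
  refine ⟨min (δ₀ / 4) 1, by positivity, ?_⟩
  intro f h hf hh pf ph hB bf nf bh nh F1 F2 H1 H2 S1 S2 hF1 hF2 hH1 hH2 hS1 hS2 gF1 gF2 gH1 gH2
    gS1 gS2
  set δ := min (δ₀ / 4) 1 with hδdef
  have hδpos : 0 < δ := by positivity
  have hδ1 : δ ≤ 1 := min_le_right _ _
  have hδ4 : 4 * δ ≤ δ₀ := by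
    have := min_le_left (δ₀ / 4) 1
    rw [← hδdef] at this
    linarith
  have hδδ : δ ≤ δ₀ := by linarith
  obtain ⟨B, hB⟩ := hB
  obtain ⟨hss, hsn⟩ := star_bounds hf hh hδpos hδ1 nf nh
  have nbmono : ∀ (u : P2 → ℝ) (a b : ℝ), a ≤ b → NB 1 u a → NB 1 u b :=
    fun u a b hab hu p => (hu p).trans hab
  -- the three unrollings
  obtain ⟨P1, -, P2', -, g1, g2, b1, b2, hroll⟩ := hU f hf pf ⟨B, fun p hp => (hB p hp).1⟩
    (fun p => (bf p).trans hδδ) (nbmono _ _ _ hδδ nf)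
  obtain rfl := isG_unique gF1 g1
  obtain rfl := isG_unique gF2 g2
  obtain ⟨Q1, -, Q2, -, g1', g2', b1', b2', hroll'⟩ := hU h hh ph ⟨B, fun p hp => (hB p hp).2⟩
    (fun p => (bh p).trans hδδ) (nbmono _ _ _ hδδ nh)
  obtain rfl := isG_unique gH1 g1'
  obtain rfl := isG_unique gH2 g2'
  have ps : ∀ p : P2, star f h (p.1 + 1, p.2) = star f h p := by
    intro p
    show h (p.1 + 1, p.2) + f (p.1 + 1 + h (p.1 + 1, p.2), p.2) = h p + f (p.1 + h p, p.2)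
    rw [ph p]
    have := pf (p.1 + h p, p.2)
    rw [← this]
    congr 3
    show p.1 + 1 + h p = p.1 + h p + 1
    ring
  obtain ⟨R1, -, R2, -, g1'', g2'', b1'', b2'', hroll''⟩ := hU (star f h) hss ps
    ⟨B, fun p hp => by
      show h p + f (p.1 + h p, p.2) = 0
      rw [(hB p hp).2, (hB (p.1 + 0, p.2) hp).1, add_zero]⟩
    (fun p => by
      show |h p + f (p.1 + h p, p.2)| ≤ δ₀
      refine (abs_add_le _ _).trans ?_
      have := bh p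
      have := bf (p.1 + h p, p.2)
      linarith) (nbmono _ _ _ hδ4 hsn)
  obtain rfl := isG_unique gS1 g1''
  obtain rfl := isG_unique gS2 g2''
  -- value of L on the unrolled maps
  have LA : ∀ {X Y : Equiv.Perm P2}, X ∈ LP → Y ∈ LP → L (AA X Y) = L X + L Y := by
    intro X Y hX hY
    have hc := (hCJ L hL).1 Y hY.1 (-8, 0)
    rw [AA, hL _ hX.1 _ hc.1, hc.2]
  have mA : ∀ {X Y : Equiv.Perm P2}, X ∈ LP → Y ∈ LP → AA X Y ∈ LP := by
    intro X Y hX hY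
    exact LP.mul_mem hX (conj_mem_LP hCJ hL hY _)
  obtain ⟨dF, rF, lF⟩ := AA_prop gF1 gF2 b1 b2
  obtain ⟨dH, rH, lH⟩ := AA_prop gH1 gH2 b1' b2'
  obtain ⟨dS, rS, lS⟩ := AA_prop gS1 gS2 b1'' b2''
  have mF := mA hF1 hF2
  have mH := mA hH1 hH2
  have mS := mA hS1 hS2
  -- the shifted map
  set Bf := tr (20, 0) * AA F1 F2 * (tr (20, 0))⁻¹ with hBf
  have mB : Bf ∈ LP := conj_mem_LP hCJ hL mF 20
  have Bapp : ∀ p : P2, Bf p = AA F1 F2 (p - (20, 0)) + (20, 0) := by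
    intro p
    rw [hBf, Equiv.Perm.mul_apply, Equiv.Perm.mul_apply, tr_inv_apply, tr_apply]
  have dB : ∀ p : P2, |(Bf p).1 - p.1| ≤ 1 / 2 := by
    intro p
    have := dF (p - (20, 0))
    rw [Bapp]
    have e : (AA F1 F2 (p - (20, 0)) + (20, 0)).1 - p.1 =
        (AA F1 F2 (p - (20, 0))).1 - (p - (20, 0)).1 := by
      simp; ring
    rw [e]; exact this
  have fixB : ∀ p : P2, p.1 ≤ 5 → Bf p = p := by
    intro p hp
    rw [Bapp, lF (p - (20, 0)) (by show p.1 - 20 ≤ -9; linarith)]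
    simp
  have rB : Roll Bf (fun p => (p.1 + f p, p.2)) := by
    have := hSH (AA F1 F2) mF dF _ hroll 20
    simpa [hBf] using this
  have hmul := hMUL (AA H1 H2) mH Bf mB dH dB 1 rH (fun p hp => fixB p (by linarith)) _ _
    hroll' rB
  have hcomp : ((fun p : P2 => ((p.1 + f p, p.2) : P2)) ∘ fun p : P2 => ((p.1 + h p, p.2) : P2)) =
      fun p => (p.1 + star f h p, p.2) := by
    funext p
    show ((p.1 + h p + f (p.1 + h p, p.2), p.2) : P2) = (p.1 + (h p + f (p.1 + h p, p.2)), p.2)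
    rw [add_assoc]
  rw [hcomp] at hmul
  have dprod : ∀ p : P2, |((Bf * AA H1 H2) p).1 - p.1| ≤ 1 / 2 := by
    intro p
    rw [Equiv.Perm.mul_apply]
    rcases le_total 1 p.1 with hp | hp
    · rw [rH p hp]; exact dB p
    · have := dH p
      rw [fixB (AA H1 H2 p) (by linarith [(abs_le.1 this).2])]
      exact this
  have heq := hEQ L hL (AA S1 S2) mS (Bf * AA H1 H2) (LP.mul_mem mB mH) dS dprod _ hroll'' hmul
  rw [LA hS1 hS2, hL _ mB.1 _ mH.1, LA hH1 hH2] at heq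
  have hcf := ((hCJ L hL).1 (AA F1 F2) mF.1 (20, 0)).2
  rw [← hBf] at hcf
  rw [hcf, LA hF1 hF2] at heq
  exact heq

end Pool.Agent.W803.DQ
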